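import Pool.Agent.Helper95.PM.Stmts

/-!
Row QHM of project PM: the quadratic form and the Hamiltonian of a molecule on smooth functions
(adaptation of row QH).
-/

set_option autoImplicit false

namespace Pool.Agent.Helper95.PW

open MeasureTheory Filter

theorem QHM_dv_contDiff {n : ℕ} (k : Fin n) (i : Fin 3) {v : Cf n → ℝ}
    (hv : ContDiff ℝ (⊤ : ℕ∞) v) : ContDiff ℝ (⊤ : ℕ∞) (dv k i v) := by
  unfold dv
  have h : ContDiff ℝ (⊤ : ℕ∞) (fderiv ℝ v) := hv.fderiv_right (by simp)
  exact h.clm_apply contDiff_const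

theorem QHM_dv_supp {n : ℕ} (k : Fin n) (i : Fin 3) {v : Cf n → ℝ}
    (hv : HasCompactSupport v) : HasCompactSupport (dv k i v) :=
  hv.fderiv_apply (𝕜 := ℝ) (Pi.single k (Pi.single i 1))

theorem QHM_int {n : ℕ} {v w : Cf n → ℝ} (hv : Continuous v) (hv' : HasCompactSupport v)
    (hw : Continuous w) : Integrable (fun x => v x * w x) :=
  (hv.mul hw).integrable_of_hasCompactSupport hv'.mul_right

theorem st_QHM (hIBP : ST_IBP) (hINT : ST_INTM) : ST_QHM := by
  intro n M X Z u v hu hv
  have hpot : ∀ (a b : Wf n), Sm a → Sm b → ∀ s,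
      ∫ x, (rep x - ∑ k, pot X Z (x k)) * (a s x * b s x) =
        (∫ x, rep x * (a s x * b s x)) - ∫ x, (∑ k, pot X Z (x k)) * (a s x * b s x) := by
    intro a b ha hb s
    obtain ⟨h1, h2, -, -⟩ := hINT n M X Z (a s) (b s) (ha s).1 (ha s).2 (hb s).1 (hb s).2
    rw [← integral_sub h2 h1]
    congr 1
    funext x
    ring
  refine ⟨?_, ?_⟩
  · unfold QbM ip
    rw [show (∑ k : Fin n, ∑ i : Fin 3, ∑ s : Fin n → Fin 2,
        ∫ x, dv k i (u s) x * dv k i (v s) x) =
        ∑ s : Fin n → Fin 2, ∑ k : Fin n, ∑ i : Fin 3,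
        ∫ x, dv k i (u s) x * dv k i (v s) x by
      rw [Finset.sum_comm]
      rw [show (∑ i : Fin 3, ∑ k : Fin n, ∑ s : Fin n → Fin 2,
        ∫ x, dv k i (u s) x * dv k i (v s) x) = ∑ i : Fin 3, ∑ s : Fin n → Fin 2, ∑ k : Fin n,
        ∫ x, dv k i (u s) x * dv k i (v s) x from
        Finset.sum_congr rfl fun i _ => Finset.sum_comm]
      rw [Finset.sum_comm]
      exact Finset.sum_congr rfl fun s _ => Finset.sum_comm]
    rw [← Finset.sum_add_distrib]
    refine Finset.sum_congr rfl fun s _ => ?_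
    obtain ⟨h1, h2, -, -⟩ := hINT n M X Z (u s) (v s) (hu s).1 (hu s).2 (hv s).1 (hv s).2
    have hd : ∀ k i, Integrable (fun x => dv k i (dv k i (u s)) x * v s x) := fun k i =>
      QHM_int (QHM_dv_contDiff k i (QHM_dv_contDiff k i (hu s).1)).continuous
        (QHM_dv_supp k i (QHM_dv_supp k i (hu s).2)) (hv s).1.continuous
    have hn : ∀ k i, Integrable (fun x => -(dv k i (dv k i (u s)) x * v s x)) := fun k i =>
      (hd k i).neg
    have hnk : ∀ k, Integrable (fun x => ∑ i : Fin 3, -(dv k i (dv k i (u s)) x * v s x)) :=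
      fun k => integrable_finsetSum _ fun i _ => hn k i
    have hibp : ∀ k i, ∫ x, dv k i (u s) x * dv k i (v s) x =
        ∫ x, -(dv k i (dv k i (u s)) x * v s x) := by
      intro k i
      rw [integral_neg, hIBP n k i (dv k i (u s)) (v s) (QHM_dv_contDiff k i (hu s).1)
        (QHM_dv_supp k i (hu s).2) (hv s).1, neg_neg]
    have hsum : (∑ k : Fin n, ∑ i : Fin 3, ∫ x, dv k i (u s) x * dv k i (v s) x) =
        ∫ x, ∑ k : Fin n, ∑ i : Fin 3, -(dv k i (dv k i (u s)) x * v s x) := by
      rw [integral_finsetSum _ fun k _ => hnk k]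
      refine Finset.sum_congr rfl fun k _ => ?_
      rw [integral_finsetSum _ fun i _ => hn k i]
      exact Finset.sum_congr rfl fun i _ => hibp k i
    have hpi : Integrable (fun x => (rep x - ∑ k, pot X Z (x k)) * (u s x * v s x)) := by
      have := h2.sub h1
      refine this.congr (Filter.Eventually.of_forall fun x => ?_)
      simp only [Pi.sub_apply]
      ring
    rw [hsum, ← integral_add (integrable_finsetSum _ fun k _ => hnk k) hpi]
    congr 1
    funext x
    simp only [hmM, Finset.sum_neg_distrib, ← Finset.sum_mul]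
    ring
  · unfold QM QbM kin pair one ip
    have e1 : (∑ k : Fin n, ∑ i : Fin 3, sq (fun s => dv k i (u s))) =
        ∑ k : Fin n, ∑ i : Fin 3, ∑ s : Fin n → Fin 2,
          ∫ x, dv k i (u s) x * dv k i (u s) x := by
      refine Finset.sum_congr rfl fun k _ => Finset.sum_congr rfl fun i _ => ?_
      unfold sq
      refine Finset.sum_congr rfl fun s _ => ?_
      congr 1
      funext x
      ring
    have e2 : (∑ s : Fin n → Fin 2, ∫ x, (rep x - ∑ k, pot X Z (x k)) * (u s x * u s x)) =
        (∑ s : Fin n → Fin 2, ∫ x, rep x * u s x ^ 2) -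
          ∑ s : Fin n → Fin 2, ∫ x, (∑ k, pot X Z (x k)) * u s x ^ 2 := by
      rw [← Finset.sum_sub_distrib]
      refine Finset.sum_congr rfl fun s _ => ?_
      rw [hpot u u hu hu s]
      simp only [pow_two]
    rw [e1, e2]
    ring

end Pool.Agent.Helper95.PW
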